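import Pool.Agent.K4H59.TL.New

open Set

namespace Pool.Agent.K4H59.TL

open Pool.Agent.K4H72.Til (IsPolygon ShareEdge IsTiling Tile Derivable Adj HasLocEig)

theorem newT_der'_of
    (sh_polygon : ∀ {K : Set ℂ} (t : ℂ) (hK : IsPolygon K), IsPolygon (sh t K))
    (sh_inj : ∀ {K : Set ℂ} (hK : K.Nonempty) (hc : IsCompact K) {s t : ℂ} (h : sh s K = sh t K), s = t)
    {C : Type} {T : Set (Tile C)} (hT : IsTiling T) {rep : Set ℂ → Set ℂ} {t : Set ℂ → ℂ}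
    (h1 : ∀ K, K = sh (t K) (rep K)) (h2 : ∀ K s, rep (sh s K) = rep K)
    {D₀ : Set ℂ → Set (Set ℂ)} {ρ₀ : Set ℂ → Set ℂ → ℕ} (hD : ∀ K, IsPolygon K → GoodDec K (D₀ K) (ρ₀ K)) :
    Derivable (newT T rep t D₀) T := by
  have shsh : ∀ (s t : ℂ) (K : Set ℂ), sh s (sh t K) = sh (s + t) K := by
    intro s t K
    unfold sh
    rw [Set.image_image]
    congr 1
    funext z
    ring
  have sh0 : ∀ K : Set ℂ, sh 0 K = K := by
    intro K; unfold sh; simp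
  have hrep : ∀ K, rep K = sh (-(t K)) K := by
    intro K
    have h3 : sh (-(t K)) K = sh (-(t K)) (sh (t K) (rep K)) := congrArg (sh (-(t K))) (h1 K)
    rw [h3, shsh, neg_add_cancel, sh0]
  have hpolyrep : ∀ s ∈ T, IsPolygon (rep s.1) := by
    intro s hs
    rw [hrep]
    exact sh_polygon _ (hT.polygon s hs)
  refine ⟨1, one_pos, ?_⟩
  have key : ∀ x y : ℂ, Pool.Agent.K4H72.Til.patch (newT T rep t D₀) (-x) (Metric.ball 0 1) =
      Pool.Agent.K4H72.Til.patch (newT T rep t D₀) (-y) (Metric.ball 0 1) →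
      Pool.Agent.K4H72.Til.patch T (-x) {0} ⊆ Pool.Agent.K4H72.Til.patch T (-y) {0} := by
    intro x y hxy
    rintro q ⟨⟨⟨K, c⟩, hKT, rfl⟩, hne⟩
    obtain ⟨z, ⟨z0, hz0, hz0'⟩, hz⟩ := hne
    have hz1 : z = 0 := hz
    have hxz : z0 = x := by
      have h1 : -x + z0 = z := hz0'
      rw [hz1] at h1
      have h2 : z0 = x + (-x + z0) := by ring
      rw [h2, h1, add_zero]
    have hxK : x ∈ K := by rw [← hxz]; exact hz0
    have hx0 : -(t K) + x ∈ rep K := by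
      rw [hrep]; exact ⟨x, hxK, rfl⟩
    have hgd := hD (rep K) (hpolyrep (K, c) hKT)
    obtain ⟨Q₀, hQ₀, hxQ⟩ := hgd.cover _ hx0
    have hmem : Pool.Agent.K4H72.Til.shift (-x) (sh (t K) Q₀, (c, rep K, Q₀)) ∈
        Pool.Agent.K4H72.Til.patch (newT T rep t D₀) (-x) (Metric.ball 0 1) := by
      refine ⟨⟨_, ⟨(K, c), hKT, Q₀, hQ₀, rfl⟩, rfl⟩, ⟨0, ⟨x, ⟨-(t K) + x, hxQ, ?_⟩, ?_⟩, ?_⟩⟩
      · show t K + (-(t K) + x) = x
        ring
      · show -x + x = 0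
        ring
      · simp
    rw [hxy] at hmem
    obtain ⟨⟨q', ⟨⟨K', c'⟩, hKT', Q', hQ', rfl⟩, hq'⟩, _⟩ := hmem
    have e1 : sh (-y) (sh (t K') Q') = sh (-x) (sh (t K) Q₀) := congrArg Prod.fst hq'
    have e2 := congrArg Prod.snd hq'
    have e3 : c' = c := congrArg Prod.fst e2
    have e4 : rep K' = rep K := congrArg (fun p => p.2.1) e2
    have e5 : Q' = Q₀ := congrArg (fun p => p.2.2) e2
    subst e5
    rw [shsh, shsh] at e1
    have e6 : -y + t K' = -x + t K := sh_inj (hgd.poly _ hQ₀).1 (hgd.poly _ hQ₀).2.1 e1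
    have e7 : Pool.Agent.K4H72.Til.shift (-x) (K, c) = Pool.Agent.K4H72.Til.shift (-y) (K', c') := by
      refine Prod.ext ?_ e3.symm
      show sh (-x) K = sh (-y) K'
      have k1 : sh (-x) K = sh (-x) (sh (t K) (rep K)) := congrArg (sh (-x)) (h1 K)
      have k2 : sh (-y) K' = sh (-y) (sh (t K') (rep K')) := congrArg (sh (-y)) (h1 K')
      rw [k1, k2, shsh, shsh, e4, e6]
    rw [e7]
    refine ⟨⟨(K', c'), hKT', rfl⟩, ?_⟩
    rw [← e7]
    exact ⟨z, ⟨z0, hz0, hz0'⟩, hz⟩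
  intro x y hxy
  exact Set.Subset.antisymm (key x y hxy) (key y x hxy.symm)

end Pool.Agent.K4H59.TL
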