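import Pool.Agent.K4H59.TL.New

open Set

namespace Pool.Agent.K4H59.TL

open Pool.Agent.K4H72.Til (IsPolygon ShareEdge IsTiling Tile Derivable Adj HasLocEig)

theorem newT_der_of
    (sh_polygon : ∀ {K : Set ℂ} (t : ℂ) (hK : IsPolygon K), IsPolygon (sh t K))
    (sh_inj : ∀ {K : Set ℂ} (hK : K.Nonempty) (hc : IsCompact K) {s t : ℂ} (h : sh s K = sh t K), s = t)
    {C : Type} {T : Set (Tile C)} (hT : IsTiling T) {rep : Set ℂ → Set ℂ} {t : Set ℂ → ℂ}
    (h1 : ∀ K, K = sh (t K) (rep K)) (h2 : ∀ K s, rep (sh s K) = rep K)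
    {D₀ : Set ℂ → Set (Set ℂ)} {ρ₀ : Set ℂ → Set ℂ → ℕ} (hD : ∀ K, IsPolygon K → GoodDec K (D₀ K) (ρ₀ K)) :
    Derivable T (newT T rep t D₀) := by
  have shsh : ∀ (s t : ℂ) (K : Set ℂ), sh s (sh t K) = sh (s + t) K := by
    intro s t K
    unfold sh
    rw [Set.image_image]
    congr 1
    funext z
    ring
  have sh0 : ∀ K : Set ℂ, sh 0 K = K := by
    intro K; unfold sh; simp
  have hrep : ∀ K, rep K = sh (-(t K)) K := by
    intro K
    have h3 : sh (-(t K)) K = sh (-(t K)) (sh (t K) (rep K)) := congrArg (sh (-(t K))) (h1 K)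
    rw [h3, shsh, neg_add_cancel, sh0]
  have hpolyrep : ∀ s ∈ T, IsPolygon (rep s.1) := by
    intro s hs
    rw [hrep]
    exact sh_polygon _ (hT.polygon s hs)
  refine ⟨1, one_pos, ?_⟩
  have key : ∀ x y : ℂ, Pool.Agent.K4H72.Til.patch T (-x) (Metric.ball 0 1) =
      Pool.Agent.K4H72.Til.patch T (-y) (Metric.ball 0 1) →
      Pool.Agent.K4H72.Til.patch (newT T rep t D₀) (-x) {0} ⊆
        Pool.Agent.K4H72.Til.patch (newT T rep t D₀) (-y) {0} := by
    intro x y hxy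
    rintro q ⟨⟨_, ⟨⟨K, c⟩, hKT, Q₀, hQ₀, rfl⟩, rfl⟩, hne⟩
    obtain ⟨z, ⟨z0, hz0, hz0'⟩, hz⟩ := hne
    have hz1 : z = 0 := hz
    have hxz : z0 = x := by
      have h1 : -x + z0 = z := hz0'
      rw [hz1] at h1
      have h2 : z0 = x + (-x + z0) := by ring
      rw [h2, h1, add_zero]
    have hgd := hD (rep K) (hpolyrep (K, c) hKT)
    have hxK : x ∈ K := by
      have h3 : x ∈ sh (t K) Q₀ := by rw [← hxz]; exact hz0
      obtain ⟨a, ha, ha'⟩ := h3
      have h4 := hgd.sub _ hQ₀ ha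
      rw [h1 K]
      exact ⟨a, h4, ha'⟩
    have hmem : Pool.Agent.K4H72.Til.shift (-x) (K, c) ∈
        Pool.Agent.K4H72.Til.patch T (-x) (Metric.ball 0 1) := by
      refine ⟨⟨_, hKT, rfl⟩, ⟨0, ⟨x, hxK, ?_⟩, ?_⟩⟩
      · show -x + x = 0
        ring
      · simp
    rw [hxy] at hmem
    obtain ⟨⟨⟨K', c'⟩, hKT', hq'⟩, _⟩ := hmem
    have e1 : sh (-y) K' = sh (-x) K := congrArg Prod.fst hq'
    have e2 : c' = c := congrArg Prod.snd hq'
    have e3 : K' = sh (y - x) K := by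
      have := congrArg (sh y) e1
      rw [shsh, shsh, add_neg_cancel, sh0] at this
      rw [this, sub_eq_add_neg]
    have e4 : rep K' = rep K := by rw [e3, h2]
    have e5 : t K' = y - x + t K := by
      apply sh_inj (hpolyrep (K, c) hKT).1 (hpolyrep (K, c) hKT).2.1
      show sh (t K') (rep K) = sh (y - x + t K) (rep K)
      rw [← shsh, ← h1 K, ← e3, ← e4, ← h1 K']
    have e6 : Pool.Agent.K4H72.Til.shift (-x) (sh (t K) Q₀, (c, rep K, Q₀)) =
        Pool.Agent.K4H72.Til.shift (-y) (sh (t K') Q₀, (c', rep K', Q₀)) := by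
      refine Prod.ext ?_ ?_
      · show sh (-x) (sh (t K) Q₀) = sh (-y) (sh (t K') Q₀)
        rw [shsh, shsh, e5]
        congr 1
        ring
      · show (c, rep K, Q₀) = (c', rep K', Q₀)
        rw [e2, e4]
    show Pool.Agent.K4H72.Til.shift (-x) (sh (t K) Q₀, (c, rep K, Q₀)) ∈ _
    have hzz : ((Pool.Agent.K4H72.Til.shift (-x) (sh (t K) Q₀, (c, rep K, Q₀))).1 ∩ {0}).Nonempty :=
      ⟨z, ⟨z0, hz0, hz0'⟩, hz⟩
    rw [e6] at hzz ⊢
    exact ⟨⟨_, ⟨(K', c'), hKT', Q₀, by rw [e4]; exact hQ₀, rfl⟩, rfl⟩, hzz⟩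
  intro x y hxy
  exact Set.Subset.antisymm (key x y hxy) (key y x hxy.symm)

end Pool.Agent.K4H59.TL
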