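import Pool.Agent.K4H78.XK2.Spec

open Finset

namespace Pool.Agent.K4H78.XK2

/-- PIECE XK2-T: the sum of a linear function over the ordered triples of distinct elements of `C` -/
theorem triple_sum {ι : Type} [DecidableEq ι] (C : Finset ι) (p : ι → ℤ) (A B G : ℤ) :
    ∑ t ∈ (C ×ˢ C ×ˢ C).filter (fun t : ι × ι × ι => t.1 ≠ t.2.1 ∧ t.1 ≠ t.2.2 ∧ t.2.1 ≠ t.2.2),
      (A + B * (p t.1 + p t.2.1) + G * p t.2.2) =
    ((C.card : ℤ) - 1) * ((C.card : ℤ) - 2) * (A * C.card + (2 * B + G) * ∑ i ∈ C, p i) := by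
  have h1 : ∑ t ∈ (C ×ˢ C ×ˢ C).filter (fun t : ι × ι × ι => t.1 ≠ t.2.1 ∧ t.1 ≠ t.2.2 ∧ t.2.1 ≠ t.2.2),
      (A + B * (p t.1 + p t.2.1) + G * p t.2.2) =
      ∑ x ∈ C, ∑ y ∈ C.erase x, ∑ z ∈ (C.erase x).erase y, (A + B * (p x + p y) + G * p z) := by
    rw [Finset.sum_filter, Finset.sum_product]
    refine Finset.sum_congr rfl fun x hx => ?_
    rw [Finset.sum_product]
    rw [← Finset.sum_subset (Finset.erase_subset x C)]
    · refine Finset.sum_congr rfl fun y hy => ?_
      have hyx : y ≠ x := (Finset.mem_erase.1 hy).1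
      rw [← Finset.sum_subset ((Finset.erase_subset y (C.erase x)).trans (Finset.erase_subset x C))]
      · refine Finset.sum_congr rfl fun z hz => ?_
        have hz1 := (Finset.mem_erase.1 hz).1
        have hz2 := (Finset.mem_erase.1 (Finset.mem_erase.1 hz).2).1
        rw [if_pos ⟨hyx.symm, hz2.symm, hz1.symm⟩]
      · intro z hzC hz
        rw [if_neg]
        rintro ⟨_, h2, h3⟩
        exact hz (Finset.mem_erase.2 ⟨h3.symm, Finset.mem_erase.2 ⟨h2.symm, hzC⟩⟩)
    · intro y hyC hy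
      refine Finset.sum_eq_zero fun z _ => ?_
      rw [if_neg]
      rintro ⟨h1, _, _⟩
      exact hy (Finset.mem_erase.2 ⟨h1.symm, hyC⟩)
  rw [h1]
  set S : ℤ := ∑ i ∈ C, p i with hS
  set c : ℤ := (C.card : ℤ) with hc
  have e1 : ∀ x ∈ C, ∑ i ∈ C.erase x, p i = S - p x := by
    intro x hx
    rw [hS, ← Finset.add_sum_erase C p hx]; ring
  have c1 : ∀ x ∈ C, ((C.erase x).card : ℤ) = c - 1 := by
    intro x hx
    have := Finset.card_erase_add_one hx
    rw [hc, ← this]; push_cast; ring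
  have e2 : ∀ x ∈ C, ∀ y ∈ C.erase x, ∑ i ∈ (C.erase x).erase y, p i = S - p x - p y := by
    intro x hx y hy
    rw [← e1 x hx, ← Finset.add_sum_erase (C.erase x) p hy]; ring
  have c2 : ∀ x ∈ C, ∀ y ∈ C.erase x, (((C.erase x).erase y).card : ℤ) = c - 2 := by
    intro x hx y hy
    have h := Finset.card_erase_add_one hy
    have h' := c1 x hx
    have : (((C.erase x).erase y).card : ℤ) + 1 = ((C.erase x).card : ℤ) := by exact_mod_cast h
    linarith
  have s1 : ∀ x ∈ C, ∑ y ∈ C.erase x, ∑ z ∈ (C.erase x).erase y, (A + B * (p x + p y) + G * p z) =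
      (c - 1) * ((c - 2) * (A + B * p x) + G * (S - p x)) + ((c - 2) * B - G) * (S - p x) := by
    intro x hx
    have : ∀ y ∈ C.erase x, ∑ z ∈ (C.erase x).erase y, (A + B * (p x + p y) + G * p z) =
        ((c - 2) * (A + B * p x) + G * (S - p x)) + ((c - 2) * B - G) * p y := by
      intro y hy
      rw [Finset.sum_add_distrib, Finset.sum_const, nsmul_eq_mul, c2 x hx y hy, ← Finset.mul_sum, e2 x hx y hy]
      ring
    rw [Finset.sum_congr rfl this, Finset.sum_add_distrib, Finset.sum_const, nsmul_eq_mul, c1 x hx,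
      ← Finset.mul_sum, e1 x hx]
  rw [Finset.sum_congr rfl s1]
  have : ∀ x ∈ C, (c - 1) * ((c - 2) * (A + B * p x) + G * (S - p x)) + ((c - 2) * B - G) * (S - p x) =
      ((c - 1) * ((c - 2) * A + G * S) + ((c - 2) * B - G) * S) +
        ((c - 1) * ((c - 2) * B - G) - ((c - 2) * B - G)) * p x := by
    intro x _; ring
  rw [Finset.sum_congr rfl this, Finset.sum_add_distrib, Finset.sum_const, nsmul_eq_mul, ← Finset.mul_sum,
    ← hS, ← hc]
  ring

end Pool.Agent.K4H78.XK2
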